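import Pool.Agent.L0h7.KF.MAIN2
import Pool.Agent.L0h71.KN.KZ
import Pool.Agent.L0h48.KN.COL
import Pool.Agent.L0h37.KN.CON1
import Pool.Agent.L0h19.KN.STG
import Pool.Agent.L0h6.KN.SHT
import Pool.Agent.L0h81.KN.LIMG
import Pool.Agent.L0h26.KF.NATR
import Pool.Agent.L0h55.KF.STR
import Pool.Agent.L0h55.KF.ULT
import Pool.Agent.L0h84.KF.CFR
import Pool.Agent.L0h84.KF.REP2
import Pool.Agent.L0h95.KF.PAT2
import Pool.Agent.L0h83.KF.LOC

set_option autoImplicit false

/-!
# Negative `K`-groups of group algebras: all fields and all groups at the same time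

`K_{-m}(k[G])` is Bass's negative `K`-group, `(Kneg m).obj ((gr k).obj G)`, and `kclass k m G e` is the class in it of
an idempotent matrix `e` over `k[ℤᵐ × G]`, see the starting files `Pool/Agent/Y75/NK` (`(EF m).obj G` is `ℤᵐ × G`).
A formal matrix is a matrix `M` over the group ring of `ℤᵐ × Fₙ` with coefficients in `ℤ[a_1, ..., a_r]`; a homomorphism
`θ : ℤ[a_1, ..., a_r] → k` and a homomorphism `f : Fₙ → G` give a matrix `value M θ f` over `k[ℤᵐ × G]`.

Let `S` be a set of characteristics with `0 ∈ S`. The groups `K_{-m}(k[G])` vanish for all fields `k` with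
characteristic in `S` and all torsion-free groups `G` if and only if for each formal matrix `M` there is `L` such that
for all fields `k` with characteristic in `S` or larger than `L`, all groups `G`, all `θ` and all `f` without torsion of
length at most `L`: if `value M θ f` is idempotent then its class is zero. For `S = {0}` this is a transfer from
characteristic zero to large characteristic, with bounds which are independent of the group.
-/

open CategoryTheory

noncomputable section

namespace Pool.Agent.Results.MP_28303a_al.AllFieldsUniformly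

open Pool.Agent.Y75.NK

/-- The free group with `n` generators. -/
abbrev free (n : ℕ) : GrpCat.{0} := GrpCat.of (FreeGroup (Fin n))

/-- Formal coefficients: the ring `ℤ[a_1, ..., a_r]`. -/
abbrev Coefficients (r : ℕ) : Type := MvPolynomial (Fin r) ℤ

/-- Formal matrices: matrices over the group ring of `ℤᵐ × Fₙ` with formal coefficients. -/
abbrev FormalMatrix (r m n d : ℕ) : Type :=
  Matrix (Fin d) (Fin d) (MonoidAlgebra (Coefficients r) ((EF m).obj (free n)))

/-- The matrix over `k[ℤᵐ × G]` which is obtained from the formal matrix `M` by the homomorphisms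
`θ : ℤ[a_1, ..., a_r] → k` and `f : Fₙ → G`. -/
def value {r m n d : ℕ} (M : FormalMatrix r m n d) {k : Type} [Field k] (θ : Coefficients r →+* k)
    {G : GrpCat.{0}} (f : free n ⟶ G) :
    Matrix (Fin d) (Fin d) (MonoidAlgebra k ((EF m).obj G)) :=
  M.map ((MonoidAlgebra.mapRingHom ((EF m).obj G) θ).comp
    (MonoidAlgebra.mapDomainRingHom (Coefficients r) ((EF m).map f).hom))

/-- No word of length at most `L` has as its image in `G` a nontrivial element of order at most
`L`. -/
def NoShortTorsion {n : ℕ} {G : GrpCat.{0}} (f : free n ⟶ G) (L : ℕ) : Prop :=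
  ∀ w : FreeGroup (Fin n), w.toWord.length ≤ L → ∀ k : ℕ, 0 < k → k ≤ L →
    f.hom w ^ k = 1 → f.hom w = 1

/-- `G` is torsion-free. -/
def TorsionFree (G : GrpCat.{0}) : Prop := ∀ g : G, ∀ k : ℕ, 0 < k → g ^ k = 1 → g = 1

/-- `K_{-m}(k[G]) = 0` for all torsion-free groups `G`. -/
def Vanishes (m : ℕ) (k : Type) [Field k] : Prop :=
  ∀ G : GrpCat.{0}, TorsionFree G → ∀ x : (Kneg m).obj ((gr k).obj G), x = 0

/-- For all groups `G`, all `θ` and all `f` without torsion of length at most `L`: if the value of
`M` is idempotent then its class in `K_{-m}(k[G])` is zero. -/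
def ZeroFrom {r m n d : ℕ} (M : FormalMatrix r m n d) (k : Type) [Field k] (L : ℕ) : Prop :=
  ∀ (θ : Coefficients r →+* k) (G : GrpCat.{0}) (f : free n ⟶ G)
    (h : value M θ f * value M θ f = value M θ f), NoShortTorsion f L →
      kclass k m G ⟨d, value M θ f, h⟩ = 0

/-- (1) Let `S` be a set of characteristics with `0 ∈ S`. The groups `K_{-m}(k[G])` vanish for all
fields `k` with characteristic in `S` and all torsion-free groups `G` if and only if for each formal
matrix `M` there is `L` such that for all fields `k` with characteristic in `S` or greater than `L`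
the classes of the values of `M` without torsion of length at most `L` are zero. (2) In particular
for all fields. (3) If the groups `K_{-m}(k[G])` vanish for all fields `k` of characteristic zero and
all torsion-free groups `G`, then for each `M` there is `L` such that these classes are zero for all
fields of characteristic zero or greater than `L`. -/
theorem result :
    (∀ (S : Set ℕ), 0 ∈ S → ∀ m : ℕ,
      ((∀ (k : Type) [Field k], ringChar k ∈ S → Vanishes m k) ↔
        ∀ (r n d : ℕ) (M : FormalMatrix r m n d), ∃ L : ℕ, ∀ (k : Type) [Field k],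
          (ringChar k ∈ S ∨ L < ringChar k) → ZeroFrom M k L)) ∧
    (∀ m : ℕ, (∀ (k : Type) [Field k], Vanishes m k) ↔
      ∀ (r n d : ℕ) (M : FormalMatrix r m n d), ∃ L : ℕ, ∀ (k : Type) [Field k], ZeroFrom M k L) ∧
    (∀ m : ℕ, (∀ (k : Type) [Field k] [CharZero k], Vanishes m k) →
      ∀ (r n d : ℕ) (M : FormalMatrix r m n d), ∃ L : ℕ, ∀ (k : Type) [Field k],
        (ringChar k = 0 ∨ L < ringChar k) → ZeroFrom M k L) := by
  have h := Pool.Agent.L0h7.KF.t_MAIN2
    (Pool.Agent.L0h7.KF.fc_kneg Pool.Agent.L0h71.KN.t_KZ Pool.Agent.L0h48.KN.t_MON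
      Pool.Agent.L0h37.KN.t_CON) Pool.Agent.L0h26.KF.t_NATR
    (Pool.Agent.L0h26.KF.t_NAT2 Pool.Agent.L0h26.KF.t_NATR) Pool.Agent.L0h84.KF.t_CFR
    Pool.Agent.L0h55.KF.t_STR Pool.Agent.L0h83.KF.t_LOC Pool.Agent.L0h95.KF.t_PAT2
    Pool.Agent.L0h84.KF.t_REP2 Pool.Agent.L0h55.KF.t_ULT
    (Pool.Agent.L0h6.KN.t_SHT Pool.Agent.L0h71.KN.t_KZ Pool.Agent.L0h48.KN.t_MON
      Pool.Agent.L0h37.KN.t_CON Pool.Agent.L0h48.KN.t_GRC Pool.Agent.L0h48.KN.t_EFC
      Pool.Agent.L0h19.KN.t_STG) Pool.Agent.L0h81.KN.t_LIMG
  have h1 : ∀ (S : Set ℕ), 0 ∈ S → ∀ m : ℕ,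
      ((∀ (k : Type) [Field k], ringChar k ∈ S → Vanishes m k) ↔
        ∀ (r n d : ℕ) (M : FormalMatrix r m n d), ∃ L : ℕ, ∀ (k : Type) [Field k],
          (ringChar k ∈ S ∨ L < ringChar k) → ZeroFrom M k L) := by
    intro S hS m
    refine Iff.trans (h S hS m) ?_
    constructor
    · intro H r n d M
      obtain ⟨L, hL⟩ := H r n d M
      refine ⟨L, fun k _ hk θ G f hid hN => ?_⟩
      obtain ⟨h2, h3⟩ := hL k hk θ G f hid hN
      exact h3
    · intro H r n d M
      obtain ⟨L, hL⟩ := H r n d M
      exact ⟨L, fun k _ hk θ G f hid hN => ⟨hid, hL k hk θ G f hid hN⟩⟩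
  refine ⟨h1, fun m => ?_, fun m H => ?_⟩
  · have h2 := h1 Set.univ (Set.mem_univ 0) m
    constructor
    · intro H r n d M
      obtain ⟨L, hL⟩ := h2.1 (fun k _ _ => H k) r n d M
      exact ⟨L, fun k _ => hL k (Or.inl (Set.mem_univ _))⟩
    · intro H k _
      refine h2.2 (fun r n d M => ?_) k (Set.mem_univ _)
      obtain ⟨L, hL⟩ := H r n d M
      exact ⟨L, fun k _ _ => hL k⟩
  · refine (h1 {0} rfl m).1 (fun k _ hk => ?_)
    have h3 : CharP k 0 := by
      have h4 := ringChar.charP k
      rw [Set.mem_singleton_iff.1 hk] at h4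
      exact h4
    have h5 : CharZero k := CharP.charP_to_charZero k
    exact H k

end Pool.Agent.Results.MP_28303a_al.AllFieldsUniformly
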