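import Pool.Agent.L0h7.KN.MAIN
import Pool.Agent.L0h71.KN.KZ
import Pool.Agent.L0h48.KN.COL
import Pool.Agent.L0h48.KN.SUB
import Pool.Agent.L0h37.KN.CON1
import Pool.Agent.L0h19.KN.STG
import Pool.Agent.L0h6.KN.MNO
import Pool.Agent.L0h6.KN.REP
import Pool.Agent.L0h6.KN.SHT
import Pool.Agent.L0h91.KN.PAT
import Pool.Agent.L0h81.KN.LIMG
import Pool.Agent.L0h66.RG.REG
import Pool.Agent.L0h66.NL.Uni
import Pool.Agent.L0h66.RG.K0S
import Pool.Agent.L0h39.TW.TSD
import Pool.Agent.L0h60.TW.TRZ
import Pool.Agent.L0h92.TW.TTR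
import Pool.Agent.L0h55.TW.TNO
import Pool.Agent.L0h33.TW.TIN
import Pool.Agent.L0h81.RG.KNR
import Pool.Agent.L0h29.RG.ECA
import Pool.Agent.L0h91.RG.ECB
import Pool.Agent.L0h33.RG.IND
import Pool.Agent.L0h33.RG.NOE
import Pool.Agent.L0h92.RG.TRE
import Pool.Agent.L0h60.RG.RGZ
import Pool.Agent.L0h60.RG.TRA
import Pool.Agent.L0h39.RG.RIS

set_option autoImplicit false

/-!
# Negative `K`-groups of torsion-free groups and uniform trivialisations

`K_{-m}(R[G])` is Bass's negative `K`-group, `(Kneg m).obj ((gr R).obj G)`, and `kclass R m G e` is the class in it of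
an idempotent matrix `e` over `R[ℤᵐ × G]`, see the starting files `Pool/Agent/Y75/NK` (`(EF m).obj G` is `ℤᵐ × G`).
A formal matrix is a matrix `M` over the group ring of `ℤᵐ × Fₙ`; a homomorphism `f : Fₙ → G` gives a matrix
`value M f` over `R[ℤᵐ × G]`.

Let `C` be a class of groups. The groups `K_{-m}(R[G])` vanish for all torsion-free groups `G` which are locally
embeddable into `C` if and only if for each formal matrix `M` there is `L` such that for each group `G` in `C` and each
`f : Fₙ → G` for which `value M f` is idempotent and which has no torsion of length at most `L` the class of `M` is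
trivial already in the group defined by the relations of length at most `L` of `f`.

For the class of all nilpotent groups of class at most `c` (with or without torsion), a regular ring `R` and `m ≥ 1` this
uniform statement is proved.
-/

open CategoryTheory

noncomputable section

namespace Pool.Agent.Results.MP_28303a_al.LocalEmbeddings

open Pool.Agent.Y75.NK

/-- The free group with `n` generators. -/
abbrev free (n : ℕ) : GrpCat.{0} := GrpCat.of (FreeGroup (Fin n))

/-- The matrix over the group ring `R[ℤᵐ × G]` which is obtained from the formal matrix `M` over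
`R[ℤᵐ × Fₙ]` by the homomorphism `f : Fₙ → G`. -/
def value {R : Type} [Ring R] {m n d : ℕ}
    (M : Matrix (Fin d) (Fin d) (MonoidAlgebra R ((EF m).obj (free n)))) {G : GrpCat.{0}}
    (f : free n ⟶ G) : Matrix (Fin d) (Fin d) (MonoidAlgebra R ((EF m).obj G)) :=
  M.map (MonoidAlgebra.mapDomainRingHom R ((EF m).map f).hom)

/-- The value of the formal matrix `M` is idempotent and its class in `K_{-m}(R[G])` is zero. -/
def Trivial {R : Type} [Ring R] {m n d : ℕ}
    (M : Matrix (Fin d) (Fin d) (MonoidAlgebra R ((EF m).obj (free n)))) {G : GrpCat.{0}}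
    (f : free n ⟶ G) : Prop :=
  ∃ h : value M f * value M f = value M f, kclass R m G ⟨d, value M f, h⟩ = 0

/-- The relations of length at most `L` of `f`: the reduced words of length at most `L` whose image
in `G` is trivial. -/
def relations {n : ℕ} {G : GrpCat.{0}} (f : free n ⟶ G) (L : ℕ) : Set (FreeGroup (Fin n)) :=
  {w | w.toWord.length ≤ L ∧ f.hom w = 1}

/-- The group with `n` generators defined by the relations of length at most `L` of `f`. -/
abbrev presented {n : ℕ} {G : GrpCat.{0}} (f : free n ⟶ G) (L : ℕ) : GrpCat.{0} :=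
  GrpCat.of (FreeGroup (Fin n) ⧸ Subgroup.normalClosure (relations f L))

/-- The canonical map of the free group to this group. -/
def toPresented {n : ℕ} {G : GrpCat.{0}} (f : free n ⟶ G) (L : ℕ) : free n ⟶ presented f L :=
  GrpCat.ofHom (QuotientGroup.mk' (Subgroup.normalClosure (relations f L)))

/-- No word of length at most `L` has as its image in `G` a nontrivial element of order at most
`L`. -/
def NoShortTorsion {n : ℕ} {G : GrpCat.{0}} (f : free n ⟶ G) (L : ℕ) : Prop :=
  ∀ w : FreeGroup (Fin n), w.toWord.length ≤ L → ∀ k : ℕ, 0 < k → k ≤ L →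
    f.hom w ^ k = 1 → f.hom w = 1

/-- `G` is torsion-free. -/
def TorsionFree (G : GrpCat.{0}) : Prop := ∀ g : G, ∀ k : ℕ, 0 < k → g ^ k = 1 → g = 1

/-- `G` is locally embeddable into the class `C` of groups: on each finite subset of `G` there is
an injective multiplicative map to a group in `C`. -/
def LocallyEmbeddable (C : GrpCat.{0} → Prop) (G : GrpCat.{0}) : Prop :=
  ∀ E : Finset G, ∃ (Q : GrpCat.{0}) (f : G → Q), C Q ∧
    (∀ x ∈ E, ∀ y ∈ E, f (x * y) = f x * f y) ∧ ∀ x ∈ E, ∀ y ∈ E, f x = f y → x = y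

/-- The uniform statement for the class `C`: for each formal matrix `M` over `R[ℤᵐ × Fₙ]` there is
`L` such that for each group `G` in `C` and each `f : Fₙ → G` without torsion of length at most `L`
for which the value of `M` is idempotent: the value of `M` in the group defined by the relations of
length at most `L` of `f` is idempotent and its class there is zero. -/
def Uniform (C : GrpCat.{0} → Prop) (R : Type) [Ring R] (m : ℕ) : Prop :=
  ∀ (n d : ℕ) (M : Matrix (Fin d) (Fin d) (MonoidAlgebra R ((EF m).obj (free n)))), ∃ L : ℕ,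
    ∀ (G : GrpCat.{0}), C G → ∀ f : free n ⟶ G, value M f * value M f = value M f →
      NoShortTorsion f L → Trivial M (toPresented f L)

/-- The left `A`-module `M` has a finite resolution by finitely generated projective `A`-modules: an
exact sequence `0 → P n → ... → P 1 → P 0 → M → 0` (`P i = 0` for `i > n`). -/
def HasResolution (A : Type) [Ring A] (M : Type) [AddCommGroup M] [Module A M] : Prop :=
  ∃ (n : ℕ) (P : ℕ → Type) (_ : ∀ i, AddCommGroup (P i)) (_ : ∀ i, Module A (P i))
    (d : ∀ i, P (i + 1) →ₗ[A] P i) (ε : P 0 →ₗ[A] M),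
    (∀ i, Module.Finite A (P i) ∧ Module.Projective A (P i)) ∧
    (∀ i, n < i → Subsingleton (P i)) ∧ Function.Surjective ε ∧
    LinearMap.range (d 0) = LinearMap.ker ε ∧
    ∀ i, LinearMap.range (d (i + 1)) = LinearMap.ker (d i)

/-- `A` is regular: it is left Noetherian and every finitely generated left `A`-module has a finite
resolution by finitely generated projective `A`-modules. -/
def Regular (A : Type) [Ring A] : Prop :=
  IsNoetherianRing A ∧ ∀ (M : Type) [AddCommGroup M] [Module A M], Module.Finite A M →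
    HasResolution A M

theorem reg_of {A : Type} [Ring A] (h : Regular A) : Pool.Agent.L0h7.RG.Reg A := by
  refine ⟨h.1, fun M _ _ hM => ?_⟩
  obtain ⟨n, P, _, _, d, ε, h1, h2, h3, h4, h5⟩ := h.2 M hM
  exact ⟨n, Pool.Agent.L0h66.RG.pd_of_seq n M P d ε h1 h2 h3 h4 h5⟩

/-- (1) For every class `C` of groups, every ring `R` and every `m`: the groups `K_{-m}(R[G])` vanish
for all torsion-free groups `G` which are locally embeddable into `C` if and only if the uniform
statement holds for `C`. (2) In particular `K_{-m}(R[G])` vanishes for all torsion-free groups `G` if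
and only if the uniform statement holds for the class of all groups. (3) It vanishes for all
torsion-free groups `G` which are locally embeddable into finite groups if and only if the uniform
statement holds for the finite groups. (4) The uniform statement for `C` implies that the class of
the value of `M` in `K_{-m}(R[G])` is zero for all `G` in `C` and `f` without torsion of length at
most `L`. (5) For every regular ring `R`, every `c` and every `m ≥ 1` the uniform statement holds for
the class of all nilpotent groups of class at most `c` (for `c = 1`: of all abelian groups). -/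
theorem result :
    (∀ (C : GrpCat.{0} → Prop) (R : Type) [Ring R] (m : ℕ),
      (∀ G : GrpCat.{0}, TorsionFree G → LocallyEmbeddable C G →
        ∀ x : (Kneg m).obj ((gr R).obj G), x = 0) ↔ Uniform C R m) ∧
    (∀ (R : Type) [Ring R] (m : ℕ), (∀ G : GrpCat.{0}, TorsionFree G →
        ∀ x : (Kneg m).obj ((gr R).obj G), x = 0) ↔ Uniform (fun _ => True) R m) ∧
    (∀ (R : Type) [Ring R] (m : ℕ), (∀ G : GrpCat.{0}, TorsionFree G →
        LocallyEmbeddable (fun Q => Finite Q) G →
        ∀ x : (Kneg m).obj ((gr R).obj G), x = 0) ↔ Uniform (fun Q => Finite Q) R m) ∧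
    (∀ (C : GrpCat.{0} → Prop) (R : Type) [Ring R] (m : ℕ), Uniform C R m → ∀ (n d : ℕ)
      (M : Matrix (Fin d) (Fin d) (MonoidAlgebra R ((EF m).obj (free n)))), ∃ L : ℕ,
        ∀ (G : GrpCat.{0}), C G → ∀ f : free n ⟶ G, value M f * value M f = value M f →
          NoShortTorsion f L → Trivial M f) ∧
    (∀ (R : Type) [Ring R], Regular R → ∀ c m : ℕ,
      Uniform (fun G => Subgroup.upperCentralSeries G c = ⊤) R (m + 1)) := by
  have h := Pool.Agent.L0h7.KN.t_MAIN Pool.Agent.L0h6.KN.t_MNO
    (Pool.Agent.L0h6.KN.t_SHT Pool.Agent.L0h71.KN.t_KZ Pool.Agent.L0h48.KN.t_MON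
      Pool.Agent.L0h37.KN.t_CON Pool.Agent.L0h48.KN.t_GRC Pool.Agent.L0h48.KN.t_EFC
      Pool.Agent.L0h19.KN.t_STG) Pool.Agent.L0h91.KN.PAT.t_PAT Pool.Agent.L0h81.KN.t_LIMG
    Pool.Agent.L0h48.KN.t_SUB Pool.Agent.L0h6.KN.t_REP
  have hTRE := Pool.Agent.L0h92.RG.t_TRE Pool.Agent.L0h60.RG.t_TRA Pool.Agent.L0h33.RG.t_IND
  have hK0S := Pool.Agent.L0h66.RG.t_K0S Pool.Agent.L0h29.RG.t_ECA
    (Pool.Agent.L0h91.RG.t_ECB Pool.Agent.L0h29.RG.t_ECA) Pool.Agent.L0h33.RG.t_IND hTRE
  have hRGZ := Pool.Agent.L0h60.RG.t_RGZ Pool.Agent.L0h91.RG.t_PEX Pool.Agent.L0h33.RG.t_IND hTRE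
    Pool.Agent.L0h33.RG.t_NOE Pool.Agent.L0h39.RG.t_RIS
  have hTRZ := Pool.Agent.L0h60.TW.t_TRZ Pool.Agent.L0h91.RG.t_PEX Pool.Agent.L0h33.TW.t_TIN
    (Pool.Agent.L0h92.TW.t_TTR Pool.Agent.L0h60.RG.t_TRA Pool.Agent.L0h33.TW.t_TIN)
    Pool.Agent.L0h55.TW.t_TNO
  refine ⟨fun C R _ m => h C R m, fun R _ m => ?_, fun R _ m => h _ R m, ?_, ?_⟩
  · refine Iff.trans ?_ (h (fun _ => True) R m)
    constructor
    · intro h1 G hG _ x
      exact h1 G hG x
    · intro h1 G hG x
      exact h1 G hG (fun E => ⟨G, fun g => g, trivial, fun x _ y _ => rfl, fun x _ y _ h => h⟩) x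
  · intro C R _ m hU n d M
    obtain ⟨L, hL⟩ := hU n d M
    refine ⟨L, fun G hG f hf hN => ?_⟩
    have h1 : Pool.Agent.L0h7.KN.Triv R m M
        (Pool.Agent.L0h7.KN.toPG n (Pool.Agent.L0h7.KN.rels f L) ≫
          Pool.Agent.L0h7.KN.fromPG f (Pool.Agent.L0h7.KN.rels f L) (fun w hw => hw.2)) :=
      Pool.Agent.L0h6.KN.t_MNO R m n d M _ _ _ _ (hL G hG f hf hN)
    rw [Pool.Agent.L0h7.KN.toPG_from] at h1
    exact h1
  · intro R _ hR c m n d M
    exact Pool.Agent.L0h66.NL.uniform_nil h Pool.Agent.L0h6.KN.t_MNO Pool.Agent.L0h48.KN.t_SUB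
      (Pool.Agent.L0h81.RG.t_KNR hK0S hRGZ) Pool.Agent.L0h39.TW.t_TSD hTRZ
      Pool.Agent.L0h39.RG.t_RIS R (reg_of hR) c m n d M

end Pool.Agent.Results.MP_28303a_al.LocalEmbeddings
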