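import Pool.Agent.L0h7.SG.Two

set_option autoImplicit false

/-!
# Negative `K`-groups of torsion-free groups: one group and degree `-1` decide

`K_{-m}(R[G])` is Bass's negative `K`-group, `(Kneg m).obj ((gr R).obj G)`, see the starting files
`Pool/Agent/Y75/NK`.

There is one torsion-free group `U` such that for every ring `R` the groups `K_{-m}(R[G])` vanish for all `m ≥ 1` and
all torsion-free groups `G` if and only if `K_{-1}(R[U]) = 0`. For every class of rings `C` (for example the regular
rings, or one ring) there is a countable such group for `C`. There is a countable torsion-free group `U` such that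
`K_{-m}(k[G]) = 0` for all fields `k`, all `m ≥ 1` and all torsion-free `G` if and only if `K_{-1}(k[U]) = 0` for all
countable fields `k`.
-/

open CategoryTheory

noncomputable section

namespace Pool.Agent.Results.MP_28303a_al.SingleGroup

open Pool.Agent.Y75.NK

/-- `G` is torsion-free. -/
def TorsionFree (G : GrpCat.{0}) : Prop := ∀ g : G, ∀ k : ℕ, 0 < k → g ^ k = 1 → g = 1

/-- `K_{-m}(R[G]) = 0`. -/
def Vanishes (R : Type) [Ring R] (m : ℕ) (G : GrpCat.{0}) : Prop :=
  ∀ x : (Kneg m).obj ((gr R).obj G), x = 0

/-- `K_{-m}(R[G]) = 0` for all `m ≥ 1` and all torsion-free groups `G`. -/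
def AllVanish (R : Type) [Ring R] : Prop :=
  ∀ m : ℕ, 1 ≤ m → ∀ G : GrpCat.{0}, TorsionFree G → Vanishes R m G

/-- (1) There is a torsion-free group `U` such that for every ring `R`: `K_{-m}(R[G]) = 0` for all
`m ≥ 1` and all torsion-free groups `G` if and only if `K_{-1}(R[U]) = 0`. (2) For every class `C` of
rings there is a countable torsion-free group `U` such that this vanishing holds for all `R` in `C`
if and only if `K_{-1}(R[U]) = 0` for all `R` in `C`. (3) There is a countable torsion-free group `U`
such that this vanishing holds for all fields if and only if `K_{-1}(k[U]) = 0` for all countable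
fields `k`. -/
theorem result :
    (∃ U : GrpCat.{0}, TorsionFree U ∧ ∀ (R : Type) [Ring R], AllVanish R ↔ Vanishes R 1 U) ∧
    (∀ C : (∀ (R : Type) [Ring R], Prop), ∃ U : GrpCat.{0}, Countable U ∧ TorsionFree U ∧
      ((∀ (R : Type) [Ring R], C R → AllVanish R) ↔
        ∀ (R : Type) [Ring R], C R → Vanishes R 1 U)) ∧
    (∃ U : GrpCat.{0}, Countable U ∧ TorsionFree U ∧
      ((∀ (k : Type) [Field k], AllVanish k) ↔
        ∀ (k : Type) [Field k], Countable k → Vanishes k 1 U)) :=
  ⟨Pool.Agent.L0h7.SG.one_group, Pool.Agent.L0h7.SG.class_group, Pool.Agent.L0h7.SG.field_group⟩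

end Pool.Agent.Results.MP_28303a_al.SingleGroup
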