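import Pool.Agent.L0h7.RGF.Torsion
import Pool.Agent.L0h66.RG.REG

set_option autoImplicit false

/-!
# Negative `K`-groups: the classes of idempotent matrices with a small support

`K_{-m}(R[G])` is Bass's negative `K`-group, `(Kneg m).obj ((gr R).obj G)`, and `kclass R m G e` is the class in it of
an idempotent matrix `e` over `R[ℤᵐ × G]` (`(EF m).obj G` is `ℤᵐ × G` and `prj m G` its projection to `G`), see the
starting files `Pool/Agent/Y75/NK`; every element of `K_{-m}(R[G])` is a difference of two such classes
(`kclass_generate` there). We consider the set `T` of the elements of `G` which are involved in `e`.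

(1) The class comes from the group defined by the multiplication table of `T`. (2) It comes from a right-angled
Artin group if the only coincidences between products of two elements of `T` are commutations. (3) Let `G` be
torsion-free and let at most three elements `1, x, y` of `G` be involved in `e`. Then the class comes from the free
group with two generators, or from the subgroup generated by `x` and `y`, and `x y = y x` or `x² = y²`. For regular
rings `R` and `m ≥ 1` we show that the class is zero (4) in (1), if the group of the multiplication table is the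
product of a free group and a free abelian group of finite ranks, and in (2), if of two commuting elements one
commutes with all others, and (5) if at most three elements `1, x, y` of `G` are involved and `G` has no elements of
order 2 and 3.
-/

open CategoryTheory

noncomputable section

namespace Pool.Agent.Results.MP_28303a_al.SmallSupports

open Pool.Agent.Y75.NK

/-- The entries of `e` involve only elements of `ℤᵐ × T`. -/
def SupportedIn {R : Type} [Ring R] {m : ℕ} {G : GrpCat.{0}} (T : Set G)
    (e : Idem (MonoidAlgebra R ((EF m).obj G))) : Prop :=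
  ∀ i j, ∀ z ∈ (e.e i j).coeff.support, prj m G z ∈ T

/-- The class of `e` in `K_{-m}(R[G])` is in the image of `K_{-m}(R[P])` for the homomorphism
`π : P → G`. -/
def ComesFrom {R : Type} [Ring R] {m : ℕ} {G P : GrpCat.{0}} (π : P ⟶ G)
    (e : Idem (MonoidAlgebra R ((EF m).obj G))) : Prop :=
  ∃ x : (Kneg m).obj ((gr R).obj P), ((gr R ⋙ Kneg m).map π).hom x = kclass R m G e

/-- The relations of the multiplication table of `T`: `[a] [b] = [c] [d]` if `a b = c d`, and
`[1] = 1`. -/
def tableRelations {G : GrpCat.{0}} (T : Set G) : Set (FreeGroup T) :=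
  {w | ∃ a b c d : T, (a : G) * b = c * d ∧
      w = FreeGroup.of a * FreeGroup.of b * (FreeGroup.of c * FreeGroup.of d)⁻¹} ∪
    {w | ∃ a : T, (a : G) = 1 ∧ w = FreeGroup.of a}

/-- The group of the multiplication table of `T`, with the generators `[t]`, `t ∈ T`. -/
abbrev Table {G : GrpCat.{0}} (T : Set G) : GrpCat.{0} :=
  GrpCat.of (FreeGroup T ⧸ Subgroup.normalClosure (tableRelations T))

/-- The commutators of `x_i` and `x_j` for all `i, j` with `t i * t j = t j * t i`. -/
def commutators {n : ℕ} {G : GrpCat.{0}} (t : Fin n → G) : Set (FreeGroup (Fin n)) :=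
  {w | ∃ i j : Fin n, t i * t j = t j * t i ∧
    w = FreeGroup.of i * FreeGroup.of j * (FreeGroup.of j * FreeGroup.of i)⁻¹}

/-- The right-angled Artin group of the commutation graph of `t`. -/
abbrev Raag {n : ℕ} {G : GrpCat.{0}} (t : Fin n → G) : GrpCat.{0} :=
  GrpCat.of (FreeGroup (Fin n) ⧸ Subgroup.normalClosure (commutators t))

/-- The `t i` are different, different from 1, and the only coincidences among the products of at most
two of them are commutations. -/
def OnlyCommutations {n : ℕ} {G : GrpCat.{0}} (t : Fin n → G) : Prop :=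
  (∀ i, t i ≠ 1) ∧ Function.Injective t ∧ (∀ i j, t i * t j ≠ 1) ∧ (∀ i j k, t i * t j ≠ t k) ∧
    ∀ i j k l, t i * t j = t k * t l → (i = k ∧ j = l) ∨ (i = l ∧ j = k)

/-- `G` is torsion-free. -/
def TorsionFree (G : GrpCat.{0}) : Prop := ∀ g : G, ∀ k : ℕ, 0 < k → g ^ k = 1 → g = 1

/-- The `A`-module `M` has a finite resolution
`0 → P_n → ... → P_1 → P_0 → M → 0` by finitely generated projective `A`-modules `P_i`: the maps
`d i : P_(i+1) → P_i` and `ε : P_0 → M` form an exact sequence, `ε` is surjective and `P_i = 0` for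
`i > n`. -/
def HasResolution (A : Type) [Ring A] (M : Type) [AddCommGroup M] [Module A M] : Prop :=
  ∃ (n : ℕ) (P : ℕ → Type) (_ : ∀ i, AddCommGroup (P i)) (_ : ∀ i, Module A (P i))
    (d : ∀ i, P (i + 1) →ₗ[A] P i) (ε : P 0 →ₗ[A] M),
    (∀ i, Module.Finite A (P i) ∧ Module.Projective A (P i)) ∧
    (∀ i, n < i → Subsingleton (P i)) ∧ Function.Surjective ε ∧
    LinearMap.range (d 0) = LinearMap.ker ε ∧
    ∀ i, LinearMap.range (d (i + 1)) = LinearMap.ker (d i)

/-- `A` is regular: it is left Noetherian and every finitely generated left `A`-module has a finite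
resolution by finitely generated projective `A`-modules. -/
def Regular (A : Type) [Ring A] : Prop :=
  IsNoetherianRing A ∧ ∀ (M : Type) [AddCommGroup M] [Module A M], Module.Finite A M →
    HasResolution A M

theorem reg_of {A : Type} [Ring A] (h : Regular A) : Pool.Agent.L0h7.RG.Reg A := by
  refine ⟨h.1, fun M _ _ hM => ?_⟩
  obtain ⟨n, P, _, _, d, ε, h1, h2, h3, h4, h5⟩ := h.2 M hM
  exact ⟨n, Pool.Agent.L0h66.RG.pd_of_seq n M P d ε h1 h2 h3 h4 h5⟩

/-- (1) The class of an idempotent matrix involving only elements of a set `T` with `1 ∈ T` comes from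
the group of the multiplication table of `T`. (2) If it involves only `1, t_1, ..., t_n` and the only
coincidences among the products of at most two of the `t_i` are commutations, then it comes from the
right-angled Artin group of their commutation graph. (3) Let `G` be torsion-free and let only
`1, x, y` be involved. Then the class comes from the free group with two generators, mapped to `x`
and `y`, or from the subgroup generated by `x` and `y`, where `x y = y x` or `x² = y²`. Let `R` be
regular and `m ≥ 1`. (4) In (1) the class is zero if the group of the multiplication table is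
isomorphic to `Fₙ × ℤᵏ`, and in (2) it is zero if for all `i ≠ j` for which `t_i` and `t_j` commute one
of them commutes with all `t_k` (for example if no two of them commute, or if all commute).
(5) If `G` has no elements of order 2 and no elements of order 3 and only `1, x, y` are involved, then
the class is zero. -/
theorem result :
    (∀ (R : Type) [Ring R] (m : ℕ) (G : GrpCat.{0}) (T : Set G), (1 : G) ∈ T →
      ∃ π : Table T ⟶ G, (∀ t : T, π.hom (FreeGroup.of t : FreeGroup T) = t) ∧
        ∀ e : Idem (MonoidAlgebra R ((EF m).obj G)), SupportedIn T e → ComesFrom π e) ∧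
    (∀ (R : Type) [Ring R] (m n : ℕ) (G : GrpCat.{0}) (t : Fin n → G), OnlyCommutations t →
      ∃ π : Raag t ⟶ G, (∀ i, π.hom (FreeGroup.of i : FreeGroup (Fin n)) = t i) ∧
        ∀ e : Idem (MonoidAlgebra R ((EF m).obj G)), SupportedIn (insert 1 (Set.range t)) e →
          ComesFrom π e) ∧
    (∀ (R : Type) [Ring R] (m : ℕ) (G : GrpCat.{0}), TorsionFree G → ∀ (x y : G)
      (e : Idem (MonoidAlgebra R ((EF m).obj G))), SupportedIn {1, x, y} e →
      ((x * y = y * x ∨ x ^ 2 = y ^ 2) ∧ ComesFrom
        (GrpCat.ofHom (Subgroup.closure {x, y}).subtype :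
          GrpCat.of (Subgroup.closure {x, y} : Subgroup G) ⟶ G) e) ∨
      ComesFrom (GrpCat.ofHom (FreeGroup.lift ![x, y]) : GrpCat.of (FreeGroup (Fin 2)) ⟶ G) e) ∧
    (∀ (R : Type) [Ring R], Regular R → ∀ (m : ℕ), 1 ≤ m → ∀ (G : GrpCat.{0}) (T : Set G),
      (1 : G) ∈ T → (∃ n k : ℕ,
        Nonempty (Table T ≃* FreeGroup (Fin n) × (Fin k → Multiplicative ℤ))) →
      ∀ e : Idem (MonoidAlgebra R ((EF m).obj G)), SupportedIn T e → kclass R m G e = 0) ∧
    (∀ (R : Type) [Ring R], Regular R → ∀ (m n : ℕ), 1 ≤ m → ∀ (G : GrpCat.{0}) (t : Fin n → G),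
      OnlyCommutations t →
      (∀ i j, i ≠ j → t i * t j = t j * t i →
        (∀ k, t i * t k = t k * t i) ∨ (∀ k, t j * t k = t k * t j)) →
      ∀ e : Idem (MonoidAlgebra R ((EF m).obj G)), SupportedIn (insert 1 (Set.range t)) e →
        kclass R m G e = 0) ∧
    (∀ (R : Type) [Ring R], Regular R → ∀ (m : ℕ), 1 ≤ m → ∀ G : GrpCat.{0},
      (∀ g : G, g ^ 2 = 1 → g = 1) → (∀ g : G, g ^ 3 = 1 → g = 1) →
      ∀ (x y : G) (e : Idem (MonoidAlgebra R ((EF m).obj G))), SupportedIn {1, x, y} e →
        kclass R m G e = 0) := by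
  have h3 := Pool.Agent.L0h7.SS.t_THREE
    (Pool.Agent.L0h36.SS.t_RAG Pool.Agent.L0h26.SS.t_PUSH)
    (Pool.Agent.L0h36.SS.t_SUBG Pool.Agent.L0h26.SS.t_PUSH) Pool.Agent.L0h36.SS.t_TWO
  refine ⟨?_, ?_, h3, ?_, ?_, ?_⟩
  · intro R _ m G T hT
    refine ⟨Pool.Agent.L0h7.SS.tblMap T, fun t => ?_, fun e he =>
      Pool.Agent.L0h26.SS.t_TBL Pool.Agent.L0h26.SS.t_PUSH R m G T hT e he⟩
    exact FreeGroup.lift_apply_of ..
  · intro R _ m n G t ht
    refine ⟨Pool.Agent.L0h7.SS.raagMap t, fun i => ?_, fun e he =>
      Pool.Agent.L0h36.SS.t_RAG Pool.Agent.L0h26.SS.t_PUSH R m n G t ht e he⟩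
    exact FreeGroup.lift_apply_of ..
  · rintro R _ hR m hm G T hT ⟨n, k, ⟨φ⟩⟩ e he
    obtain ⟨m, rfl⟩ : ∃ k, m = k + 1 := ⟨m - 1, by omega⟩
    exact Pool.Agent.L0h7.RGF.small_table R (reg_of hR) m G T hT n k φ e he
  · intro R _ hR m n hm G t ht hc e he
    obtain ⟨m, rfl⟩ : ∃ k, m = k + 1 := ⟨m - 1, by omega⟩
    exact Pool.Agent.L0h7.RGF.small_cone R (reg_of hR) m n G t ht hc e he
  · intro R _ hR m hm G h2 h3' x y e he
    obtain ⟨m, rfl⟩ : ∃ k, m = k + 1 := ⟨m - 1, by omega⟩
    exact Pool.Agent.L0h7.RGF.small_torsion R (reg_of hR) m G h2 h3' x y e he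

end Pool.Agent.Results.MP_28303a_al.SmallSupports
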